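import Pool.Agent.H677.FE.Spec

/-!
# Completing a family of blocks to a design with constant replication number and index
-/

set_option autoImplicit false
set_option linter.unusedSectionVars false

namespace Pool.Agent.H677.FE

/-- The number of blocks that contain `p` and `q`. -/
def cov (bl : List (List ℕ)) (p q : ℕ) : ℕ :=
  (bl.filter fun B => decide (p ∈ B) && decide (q ∈ B)).length

/-- The number of blocks that contain `p`. -/
def rep (bl : List (List ℕ)) (p : ℕ) : ℕ := (bl.filter fun B => decide (p ∈ B)).length

theorem cov_append (bl bl' : List (List ℕ)) (p q : ℕ) :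
    cov (bl ++ bl') p q = cov bl p q + cov bl' p q := by
  unfold cov
  rw [List.filter_append, List.length_append]

theorem rep_append (bl bl' : List (List ℕ)) (p : ℕ) :
    rep (bl ++ bl') p = rep bl p + rep bl' p := by
  unfold rep
  rw [List.filter_append, List.length_append]

theorem rep_eq_cov (bl : List (List ℕ)) (p : ℕ) : rep bl p = cov bl p p := by
  unfold rep cov
  simp

theorem cov_comm (bl : List (List ℕ)) (p q : ℕ) : cov bl p q = cov bl q p := by
  unfold cov
  congr 2
  funext B
  exact Bool.and_comm _ _

theorem cov_le_length (bl : List (List ℕ)) (p q : ℕ) : cov bl p q ≤ bl.length :=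
  List.length_filter_le _ _

theorem cov_perm {bl bl' : List (List ℕ)} (h : bl.Perm bl') (p q : ℕ) :
    cov bl p q = cov bl' p q := (h.filter _).length_eq

theorem cov_map {f : ℕ → ℕ} (hf : Function.Injective f) (bl : List (List ℕ)) (p q : ℕ) :
    cov (bl.map (List.map f)) (f p) (f q) = cov bl p q := by
  unfold cov
  rw [List.filter_map, List.length_map]
  congr 2
  funext B
  simp only [Function.comp_apply, List.mem_map, hf.eq_iff, exists_eq_right]

theorem cov_flatMap {α : Type} (l : List α) (g : α → List (List ℕ)) (p q : ℕ) :
    cov (l.flatMap g) p q = (l.map fun a => cov (g a) p q).sum := by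
  induction l with
  | nil => rfl
  | cons a l ih => rw [List.flatMap_cons, cov_append, ih, List.map_cons, List.sum_cons]

theorem sum_range_list (f : ℕ → ℕ) (n : ℕ) :
    ((List.range n).map f).sum = ∑ i ∈ Finset.range n, f i := by
  induction n with
  | zero => rfl
  | succ n ih => rw [List.range_succ, List.map_append, List.sum_append, ih,
      Finset.sum_range_succ, List.map_singleton, List.sum_singleton]

theorem cov_replicate (k : ℕ) (B : List ℕ) (p q : ℕ) :
    cov (List.replicate k B) p q = if p ∈ B ∧ q ∈ B then k else 0 := by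
  unfold cov
  rw [List.filter_replicate]
  by_cases h : p ∈ B ∧ q ∈ B
  · simp [h.1, h.2]
  · rw [if_neg h]
    have : (decide (p ∈ B) && decide (q ∈ B)) = false := by
      rw [← Bool.decide_and, decide_eq_false_iff_not]
      exact h
    simp [this]

/-- The blocks with two elements. -/
def fill2 (v l : ℕ) (bl : List (List ℕ)) : List (List ℕ) :=
  (List.range v).flatMap fun p => (List.range v).flatMap fun q =>
    bif decide (p = q) then [] else List.replicate (l - cov bl p q) [p, q]

/-- The blocks with one element. -/
def fill1 (v k : ℕ) (bl : List (List ℕ)) : List (List ℕ) :=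
  (List.range v).flatMap fun p => List.replicate (k - rep bl p) [p]

/-- The blocks with at least two elements. -/
def comp2 (v l : ℕ) (bl : List (List ℕ)) : List (List ℕ) := (bl ++ bl) ++ fill2 v l bl

/-- The completion of a list of blocks. -/
def comp (v l : ℕ) (bl : List (List ℕ)) : List (List ℕ) :=
  comp2 v l bl ++ fill1 v ((2 * l) * (2 * l)) (comp2 v l bl)

theorem cov_fill2 (v l : ℕ) (bl : List (List ℕ)) (p q : ℕ) :
    cov (fill2 v l bl) p q = ∑ a ∈ Finset.range v, ∑ b ∈ Finset.range v,
      if a ≠ b ∧ (p = a ∨ p = b) ∧ (q = a ∨ q = b) then l - cov bl a b else 0 := by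
  unfold fill2
  rw [cov_flatMap, sum_range_list]
  refine Finset.sum_congr rfl fun a _ => ?_
  rw [cov_flatMap, sum_range_list]
  refine Finset.sum_congr rfl fun b _ => ?_
  by_cases h : a = b
  · rw [decide_eq_true h, cond_true, if_neg (fun h' => h'.1 h)]
    rfl
  · rw [decide_eq_false h, cond_false, cov_replicate]
    refine if_congr ?_ rfl rfl
    simp [h]

theorem cov_fill2_ne {v l : ℕ} {bl : List (List ℕ)} {p q : ℕ} (hp : p < v) (hq : q < v)
    (h : p ≠ q) : cov (fill2 v l bl) p q = (l - cov bl p q) + (l - cov bl q p) := by
  rw [cov_fill2]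
  have key : ∀ a b : ℕ, (if a ≠ b ∧ (p = a ∨ p = b) ∧ (q = a ∨ q = b) then l - cov bl a b else 0) =
      (if a = p then (if b = q then l - cov bl p q else 0) else 0) +
        (if a = q then (if b = p then l - cov bl q p else 0) else 0) := by
    intro a b
    by_cases h1 : a = p
    · subst h1
      by_cases h2 : b = q
      · subst h2
        simp [h]
      · have h3 : ¬ (q = a ∨ q = b) := by
          rintro (h3 | h3)
          · exact h h3.symm
          · exact h2 h3.symm
        simp [h2, h3, h]
    · by_cases h2 : a = q
      · subst h2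
        by_cases h3 : b = p
        · subst h3
          simp [h, Ne.symm h]
        · have h4 : ¬ (p = a ∨ p = b) := by
            rintro (h4 | h4)
            · exact h h4
            · exact h3 h4.symm
          simp [h1, h3, h4]
      · have h3 : ¬ (a ≠ b ∧ (p = a ∨ p = b) ∧ (q = a ∨ q = b)) := by
          rintro ⟨_, h4, h5⟩
          rcases h4 with h4 | h4
          · exact h1 h4.symm
          · rcases h5 with h5 | h5
            · exact h2 h5.symm
            · exact h (h4.trans h5.symm)
        rw [if_neg h3, if_neg h1, if_neg h2]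
  simp only [key, Finset.sum_add_distrib]
  congr 1
  · rw [Finset.sum_eq_single p, Finset.sum_eq_single q]
    · simp
    · intro b _ hb
      simp [hb]
    · intro hq'
      exact absurd (Finset.mem_range.2 hq) hq'
    · intro a _ ha
      simp [ha]
    · intro hp'
      exact absurd (Finset.mem_range.2 hp) hp'
  · rw [Finset.sum_eq_single q, Finset.sum_eq_single p]
    · simp
    · intro b _ hb
      simp [hb]
    · intro hp'
      exact absurd (Finset.mem_range.2 hp) hp'
    · intro a _ ha
      simp [ha]
    · intro hq'
      exact absurd (Finset.mem_range.2 hq) hq'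

theorem cov_fill2_self {v l : ℕ} {bl : List (List ℕ)} {p : ℕ} :
    cov (fill2 v l bl) p p ≤ 2 * v * l := by
  rw [cov_fill2]
  have key : ∀ a b : ℕ, (if a ≠ b ∧ (p = a ∨ p = b) ∧ (p = a ∨ p = b) then l - cov bl a b else 0) ≤
      (if a = p then l else 0) + (if b = p then l else 0) := by
    intro a b
    split_ifs with h1 h2 h3 h3 h2 h3 h3
    all_goals try omega
  refine (Finset.sum_le_sum fun a _ => Finset.sum_le_sum fun b _ => key a b).trans ?_
  simp only [Finset.sum_add_distrib, Finset.sum_const, Finset.card_range, smul_eq_mul]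
  have h1 : ∑ a ∈ Finset.range v, (if a = p then l else 0) ≤ l := by
    rw [Finset.sum_ite_eq']
    split_ifs
    · exact le_rfl
    · exact Nat.zero_le _
  calc ∑ x ∈ Finset.range v, v * (if x = p then l else 0) +
        v * ∑ x ∈ Finset.range v, (if x = p then l else 0)
      = v * ∑ x ∈ Finset.range v, (if x = p then l else 0) +
        v * ∑ x ∈ Finset.range v, (if x = p then l else 0) := by rw [Finset.mul_sum]
    _ ≤ v * l + v * l := Nat.add_le_add (Nat.mul_le_mul_left _ h1) (Nat.mul_le_mul_left _ h1)
    _ = _ := by ring

theorem cov_fill1 (v k : ℕ) (bl : List (List ℕ)) (p q : ℕ) :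
    cov (fill1 v k bl) p q = ∑ a ∈ Finset.range v, if p = a ∧ q = a then k - rep bl a else 0 := by
  unfold fill1
  rw [cov_flatMap, sum_range_list]
  refine Finset.sum_congr rfl fun a _ => ?_
  rw [cov_replicate]
  simp only [List.mem_singleton]

theorem cov_fill1_ne {v k : ℕ} {bl : List (List ℕ)} {p q : ℕ} (h : p ≠ q) :
    cov (fill1 v k bl) p q = 0 := by
  rw [cov_fill1]
  exact Finset.sum_eq_zero fun a _ => if_neg fun h' => h (h'.1.trans h'.2.symm)

theorem cov_fill1_self {v k : ℕ} {bl : List (List ℕ)} {p : ℕ} (hp : p < v) :
    cov (fill1 v k bl) p p = k - rep bl p := by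
  rw [cov_fill1, Finset.sum_eq_single p]
  · simp
  · intro a _ ha
    exact if_neg fun h => ha h.1.symm
  · intro h
    exact absurd (Finset.mem_range.2 hp) h

/-- The completion has constant index. -/
theorem cov_comp {v l : ℕ} {bl : List (List ℕ)} (hbl : bl.length ≤ l) {p q : ℕ} (hp : p < v)
    (hq : q < v) (h : p ≠ q) : cov (comp v l bl) p q = 2 * l := by
  unfold comp comp2
  have h1 := cov_le_length bl p q
  rw [cov_append, cov_append, cov_append, cov_fill2_ne hp hq h, cov_fill1_ne h, cov_comm bl q p]
  omega

/-- The completion has constant replication number. -/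
theorem rep_comp {v l : ℕ} {bl : List (List ℕ)} (hbl : bl.length ≤ l) (hl : v + 1 ≤ 2 * l)
    {p : ℕ} (hp : p < v) : cov (comp v l bl) p p = (2 * l) * (2 * l) := by
  unfold comp
  rw [cov_append, cov_fill1_self hp, rep_eq_cov]
  have h1 : cov (comp2 v l bl) p p ≤ (2 * l) * (2 * l) := by
    unfold comp2
    rw [cov_append, cov_append]
    have h1 := cov_le_length bl p p
    have h2 := cov_fill2_self (v := v) (l := l) (bl := bl) (p := p)
    have h3 : (v + 1) * (2 * l) ≤ 2 * l * (2 * l) := Nat.mul_le_mul_right _ hl
    have h4 : (v + 1) * (2 * l) = 2 * v * l + 2 * l := by ring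
    omega
  omega

/-! ### Permutations -/

section perm

variable {f : ℕ → ℕ} (hf : Function.Injective f) {v : ℕ}
  (hv : ((List.range v).map f).Perm (List.range v))

include hf hv

theorem flatMap_perm {β : Type} (g : ℕ → List β) :
    ((List.range v).flatMap g).Perm ((List.range v).flatMap fun a => g (f a)) := by
  have h1 : ((List.range v).flatMap fun a => g (f a)) = ((List.range v).map f).flatMap g := by
    rw [List.flatMap_map]
  rw [h1]
  exact (hv.flatMap_right g).symm

theorem fill2_perm {l : ℕ} {bl bl' : List (List ℕ)} (h : bl'.Perm (bl.map (List.map f))) :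
    (fill2 v l bl').Perm ((fill2 v l bl).map (List.map f)) := by
  have hcov : ∀ p q, cov bl' (f p) (f q) = cov bl p q := fun p q => by
    rw [cov_perm h, cov_map hf]
  unfold fill2
  refine (flatMap_perm hf hv _).trans ?_
  rw [List.map_flatMap]
  refine List.Perm.flatMap_left _ fun p _ => ?_
  refine (flatMap_perm hf hv _).trans ?_
  rw [List.map_flatMap]
  refine List.Perm.flatMap_left _ fun q _ => ?_
  by_cases h1 : p = q
  · subst h1
    rw [decide_eq_true rfl, decide_eq_true rfl]
    exact List.Perm.refl _
  · rw [decide_eq_false h1, decide_eq_false fun h2 => h1 (hf h2), cond_false, cond_false, hcov,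
      List.map_replicate]
    exact List.Perm.refl _

theorem fill1_perm {k : ℕ} {bl bl' : List (List ℕ)} (h : bl'.Perm (bl.map (List.map f))) :
    (fill1 v k bl').Perm ((fill1 v k bl).map (List.map f)) := by
  have hrep : ∀ p, rep bl' (f p) = rep bl p := fun p => by
    rw [rep_eq_cov, rep_eq_cov, cov_perm h, cov_map hf]
  unfold fill1
  refine (flatMap_perm hf hv _).trans ?_
  rw [List.map_flatMap]
  refine List.Perm.flatMap_left _ fun p _ => ?_
  rw [hrep, List.map_replicate]
  exact List.Perm.refl _

theorem comp_perm {l : ℕ} {bl bl' : List (List ℕ)} (h : bl'.Perm (bl.map (List.map f))) :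
    (comp v l bl').Perm ((comp v l bl).map (List.map f)) := by
  have h2 : (comp2 v l bl').Perm ((comp2 v l bl).map (List.map f)) := by
    unfold comp2
    rw [List.map_append, List.map_append]
    exact (h.append h).append (fill2_perm hf hv h)
  unfold comp
  rw [List.map_append]
  exact h2.append (fill1_perm hf hv h2)

end perm

/-! ### Positions -/

theorem card_pos {α : Type} (P : α → Prop) [DecidablePred P] (l : List α) :
    Fintype.card {t : Fin l.length // P l[t]} = (l.filter fun a => decide (P a)).length := by
  rw [Fintype.card_subtype]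
  have h1 : (Finset.univ.filter fun t : Fin l.length => P l[t]).card =
      ∑ t : Fin l.length, if P l[t] then 1 else 0 := by
    rw [Finset.card_filter]
  rw [h1]
  have h2 : ∑ t : Fin l.length, (if P l[t] then 1 else 0) =
      (l.map fun a => if P a then 1 else 0).sum :=
    Fin.sum_univ_fun_getElem l fun a => if P a then 1 else 0
  rw [h2]
  clear h1 h2
  induction l with
  | nil => rfl
  | cons a l ih =>
    rw [List.map_cons, List.sum_cons, ih, List.filter_cons]
    by_cases h : P a
    · simp [h, add_comm]
    · simp [h]

/-- Permuted lists have the same entries up to a bijection of the positions. -/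
theorem exists_pos_equiv {α : Type} [DecidableEq α] {l l' : List α} (h : l.Perm l') :
    ∃ e : Fin l.length ≃ Fin l'.length, ∀ t, l'[e t] = l[t] := by
  have h1 : ∀ a : α, Nonempty ({t : Fin l.length // l[t] = a} ≃ {t : Fin l'.length // l'[t] = a}) := by
    intro a
    refine ⟨Fintype.equivOfCardEq ?_⟩
    rw [card_pos (fun b => b = a) l, card_pos (fun b => b = a) l']
    exact (h.filter _).length_eq
  refine ⟨Equiv.ofFiberEquiv (f := fun t : Fin l.length => l[t])
    (g := fun t : Fin l'.length => l'[t]) fun a => (h1 a).some, fun t => ?_⟩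
  exact Equiv.ofFiberEquiv_map _ t

/-- The members of the completion. -/
theorem mem_comp {v l : ℕ} {bl : List (List ℕ)} {B : List ℕ} (h : B ∈ comp v l bl) :
    B ∈ bl ∨ (∃ p q, p < v ∧ q < v ∧ B = [p, q]) ∨ ∃ p, p < v ∧ B = [p] := by
  unfold comp comp2 fill1 at h
  rw [List.mem_append, List.mem_append, List.mem_append] at h
  rcases h with ((h | h) | h) | h
  · exact Or.inl h
  · exact Or.inl h
  · right
    left
    unfold fill2 at h
    rw [List.mem_flatMap] at h
    obtain ⟨p, hp, h⟩ := h
    rw [List.mem_flatMap] at h
    obtain ⟨q, hq, h⟩ := h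
    refine ⟨p, q, List.mem_range.1 hp, List.mem_range.1 hq, ?_⟩
    by_cases hpq : p = q
    · rw [decide_eq_true hpq, cond_true] at h
      exact absurd h (by simp)
    · rw [decide_eq_false hpq, cond_false] at h
      exact List.eq_of_mem_replicate h
  · right
    right
    rw [List.mem_flatMap] at h
    obtain ⟨p, hp, h⟩ := h
    exact ⟨p, List.mem_range.1 hp, List.eq_of_mem_replicate h⟩

theorem subset_comp {v l : ℕ} {bl : List (List ℕ)} {B : List ℕ} (h : B ∈ bl) :
    B ∈ comp v l bl := by
  unfold comp comp2
  exact List.mem_append_left _ (List.mem_append_left _ (List.mem_append_left _ h))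

end Pool.Agent.H677.FE
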