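import Pool.Agent.H677.FE.Blocks
import Pool.Agent.H677.GW.Red

/-!
# The design of a graph
-/

set_option autoImplicit false
set_option linter.unusedSectionVars false

namespace Pool.Agent.H677.FE

open Finset Pool.Agent.NPC.UB129 Pool.Agent.NPC.R671

/-- The incidence of points and positions of blocks. -/
def incL (v : ℕ) (bl : List (List ℕ)) (p : Fin v) (t : Fin bl.length) : Prop := (p : ℕ) ∈ bl[t]

/-- The basic blocks of an adjacency matrix: one block with four elements, and a block with three
elements for every pair of adjacent vertices. -/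
def base (M : Mat) : List (List ℕ) :=
  [M.length, M.length + 1, M.length + 2, M.length + 3] ::
    (List.range M.length).flatMap fun u => (List.range M.length).flatMap fun w =>
      bif ent M u w then [[u, w, M.length]] else []

/-- Half of the index. -/
def ell (n : ℕ) : ℕ := n * n + n + 3

/-- The blocks. -/
def blocks (M : Mat) : List (List ℕ) := comp (M.length + 4) (ell M.length) (base M)

theorem base_length (M : Mat) : (base M).length ≤ ell M.length := by
  unfold base ell
  rw [List.length_cons, List.length_flatMap]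
  have h1 : ∀ u, ((List.range M.length).flatMap fun w =>
      bif ent M u w then [[u, w, M.length]] else []).length ≤ M.length := by
    intro u
    rw [List.length_flatMap, sum_range_list]
    calc _ ≤ ∑ _i ∈ Finset.range M.length, 1 := Finset.sum_le_sum fun w _ => by
          cases ent M u w <;> simp
      _ = _ := by simp
  rw [sum_range_list]
  calc _ ≤ (∑ _i ∈ Finset.range M.length, M.length) + 1 :=
        Nat.add_le_add_right (Finset.sum_le_sum fun u _ => h1 u) 1
    _ ≤ _ := by
      rw [Finset.sum_const, Finset.card_range, smul_eq_mul]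
      omega

theorem mem_base {M : Mat} {B : List ℕ} : B ∈ base M ↔
    B = [M.length, M.length + 1, M.length + 2, M.length + 3] ∨
      ∃ u w, u < M.length ∧ w < M.length ∧ ent M u w = true ∧ B = [u, w, M.length] := by
  unfold base
  rw [List.mem_cons, List.mem_flatMap]
  refine or_congr Iff.rfl ?_
  constructor
  · rintro ⟨u, hu, h⟩
    rw [List.mem_flatMap] at h
    obtain ⟨w, hw, h⟩ := h
    cases he : ent M u w
    · rw [he, cond_false] at h
      exact absurd h (by simp)
    · rw [he, cond_true, List.mem_singleton] at h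
      exact ⟨u, w, List.mem_range.1 hu, List.mem_range.1 hw, he, h⟩
  · rintro ⟨u, w, hu, hw, he, rfl⟩
    refine ⟨u, List.mem_range.2 hu, ?_⟩
    rw [List.mem_flatMap]
    exact ⟨w, List.mem_range.2 hw, by rw [he]; simp⟩

/-- The points of a block. -/
def pts (v : ℕ) (B : List ℕ) : Finset (Fin v) := Finset.univ.filter fun p => (p : ℕ) ∈ B

theorem mem_pts {v : ℕ} {B : List ℕ} {p : Fin v} : p ∈ pts v B ↔ (p : ℕ) ∈ B := by
  unfold pts
  rw [Finset.mem_filter]
  exact ⟨fun h => h.2, fun h => ⟨Finset.mem_univ _, h⟩⟩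

theorem card_pts_le (v : ℕ) (B : List ℕ) : (pts v B).card ≤ B.length := by
  refine (Finset.card_le_card_of_injOn (s := pts v B) (t := B.toFinset)
    (fun p : Fin v => (p : ℕ)) ?_ ?_).trans (List.toFinset_card_le B)
  · intro p hp
    exact Finset.mem_coe.2 (List.mem_toFinset.2 (mem_pts.1 hp))
  · intro p _ q _ h
    exact Fin.ext h

theorem card_pts {v : ℕ} {B : List ℕ} (h : ∀ x ∈ B, x < v) (hn : B.Nodup) :
    (pts v B).card = B.length := by
  refine le_antisymm (card_pts_le v B) ?_
  rw [← List.toFinset_card_of_nodup hn]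
  refine Finset.card_le_card_of_surjOn (fun p : Fin v => (p : ℕ)) ?_
  intro x hx
  have hx' := List.mem_toFinset.1 (Finset.mem_coe.1 hx)
  exact ⟨⟨x, h x hx'⟩, Finset.mem_coe.2 (mem_pts.2 hx'), rfl⟩

section graphs

variable {v : ℕ} {bl : List (List ℕ)}

theorem degree_inr (t : Fin bl.length) :
    ((dg (incL v bl)).neighborSet (Sum.inr t)).ncard = (pts v bl[t]).card := by
  have h1 : (dg (incL v bl)).neighborSet (Sum.inr t) =
      (fun p => (Sum.inl p : Fin v ⊕ Fin bl.length)) '' (pts v bl[t] : Set (Fin v)) := by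
    ext x
    rcases x with p | s
    · constructor
      · intro h
        exact ⟨p, Finset.mem_coe.2 (mem_pts.2 h), rfl⟩
      · rintro ⟨q, hq, h⟩
        have := Sum.inl_injective h
        subst this
        exact mem_pts.1 (Finset.mem_coe.1 hq)
    · constructor
      · intro h
        exact absurd h id
      · rintro ⟨q, hq, h⟩
        exact absurd h (by simp)
  rw [h1, Set.ncard_image_of_injective _ Sum.inl_injective, Set.ncard_coe_finset]

theorem degree_inl (p : Fin v) : cov bl p p ≤ ((dg (incL v bl)).neighborSet (Sum.inl p)).ncard := by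
  have h1 : (fun t => (Sum.inr t : Fin v ⊕ Fin bl.length)) '' {t | incL v bl p t} ⊆
      (dg (incL v bl)).neighborSet (Sum.inl p) := by
    rintro _ ⟨t, ht, rfl⟩
    exact ht
  have h2 := Set.ncard_le_ncard h1 (Set.toFinite _)
  rw [Set.ncard_image_of_injective _ Sum.inr_injective] at h2
  refine le_trans (le_of_eq ?_) h2
  rw [← rep_eq_cov]
  unfold rep
  have h3 := card_pos (fun B : List ℕ => (p : ℕ) ∈ B) bl
  rw [← h3, ← Nat.card_eq_fintype_card]
  rfl

end graphs

theorem length_le_of_mem {M : Mat} {B : List ℕ} (h : B ∈ blocks M) : B.length ≤ 4 := by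
  rcases mem_comp h with h | ⟨p, q, _, _, rfl⟩ | ⟨p, _, rfl⟩
  · rcases mem_base.1 h with rfl | ⟨u, w, _, _, _, rfl⟩
    · simp
    · simp
  · simp
  · simp

theorem lt_of_mem {M : Mat} {B : List ℕ} (h : B ∈ blocks M) {x : ℕ} (hx : x ∈ B) :
    x < M.length + 4 := by
  rcases mem_comp h with h | ⟨p, q, hp, hq, rfl⟩ | ⟨p, hp, rfl⟩
  · rcases mem_base.1 h with rfl | ⟨u, w, hu, hw, _, rfl⟩
    · simp only [List.mem_cons, List.not_mem_nil, or_false] at hx
      omega
    · simp only [List.mem_cons, List.not_mem_nil, or_false] at hx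
      omega
  · simp only [List.mem_cons, List.not_mem_nil, or_false] at hx
    omega
  · simp only [List.mem_cons, List.not_mem_nil, or_false] at hx
    omega

theorem exists_mem {M : Mat} {B : List ℕ} (h : B ∈ blocks M) : ∃ x, x ∈ B := by
  rcases mem_comp h with h | ⟨p, q, hp, hq, rfl⟩ | ⟨p, hp, rfl⟩
  · rcases mem_base.1 h with rfl | ⟨u, w, hu, hw, _, rfl⟩
    · exact ⟨_, List.mem_cons_self ..⟩
    · exact ⟨_, List.mem_cons_self ..⟩
  · exact ⟨_, List.mem_cons_self ..⟩
  · exact ⟨_, List.mem_cons_self ..⟩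

theorem four_of {M : Mat} {B : List ℕ} (h : B ∈ blocks M)
    (h4 : 4 ≤ (pts (M.length + 4) B).card) :
    B = [M.length, M.length + 1, M.length + 2, M.length + 3] := by
  have h5 := h4.trans (card_pts_le _ _)
  rcases mem_comp h with h | ⟨p, q, _, _, rfl⟩ | ⟨p, _, rfl⟩
  · rcases mem_base.1 h with rfl | ⟨u, w, _, _, _, rfl⟩
    · rfl
    · simp at h5
  · simp at h5
  · simp at h5

theorem card_four (n : ℕ) : (pts (n + 4) [n, n + 1, n + 2, n + 3]).card = 4 := by
  rw [card_pts]
  · rfl
  · intro x hx
    simp only [List.mem_cons, List.not_mem_nil, or_false] at hx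
    omega
  · simp

theorem three_of {M : Mat} {B : List ℕ} (h : B ∈ blocks M)
    (h3 : (pts (M.length + 4) B).card = 3) :
    ∃ u w, u < M.length ∧ w < M.length ∧ ent M u w = true ∧ B = [u, w, M.length] := by
  have h5 := h3.symm.le.trans (card_pts_le _ _)
  rcases mem_comp h with h | ⟨p, q, _, _, rfl⟩ | ⟨p, _, rfl⟩
  · rcases mem_base.1 h with rfl | h
    · rw [card_four] at h3
      omega
    · exact h
  · simp at h5
  · simp at h5

theorem ell_pos (n : ℕ) : n + 4 + 1 ≤ 2 * ell n ∧ 3 ≤ ell n := by
  unfold ell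
  constructor
  · nlinarith [Nat.zero_le n]
  · omega

/-- The isomorphisms of the graphs of two completions. -/
theorem split_iso {M M' : Mat}
    (φ : dg (incL (M.length + 4) (blocks M)) ≃g dg (incL (M'.length + 4) (blocks M'))) :
    ∃ (π : Fin (M.length + 4) ≃ Fin (M'.length + 4))
      (τ : Fin (blocks M).length ≃ Fin (blocks M').length),
      ∀ p t, incL _ (blocks M') (π p) (τ t) ↔ incL _ (blocks M) p t := by
  have hdeg : ∀ (M : Mat) (p : Fin (M.length + 4)),
      4 < ((dg (incL (M.length + 4) (blocks M))).neighborSet (Sum.inl p)).ncard := by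
    intro M p
    refine lt_of_lt_of_le ?_ (degree_inl p)
    rw [blocks, rep_comp (base_length M) (ell_pos M.length).1 p.isLt]
    have h1 := (ell_pos M.length).2
    have h2 : 6 * 6 ≤ (2 * ell M.length) * (2 * ell M.length) :=
      Nat.mul_le_mul (by omega) (by omega)
    omega
  have hdeg' : ∀ (M : Mat) (t : Fin (blocks M).length),
      ((dg (incL (M.length + 4) (blocks M))).neighborSet (Sum.inr t)).ncard ≤ 4 := by
    intro M t
    rw [degree_inr]
    exact (card_pts_le _ _).trans (length_le_of_mem (List.getElem_mem t.isLt))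
  have key : ∀ {M M' : Mat}
      (φ : dg (incL (M.length + 4) (blocks M)) ≃g dg (incL (M'.length + 4) (blocks M'))),
      (∀ p, ∃ q, φ (Sum.inl p) = Sum.inl q) ∧ ∀ t, ∃ s, φ (Sum.inr t) = Sum.inr s := by
    intro M M' φ
    constructor
    · intro p
      have h1 := GW.iso_ncard φ (Sum.inl p)
      have h2 := hdeg M p
      rcases hx : φ (Sum.inl p) with q | s
      · exact ⟨q, rfl⟩
      · rw [hx] at h1
        have h3 := hdeg' M' s
        omega
    · intro t
      have h1 := GW.iso_ncard φ (Sum.inr t)
      have h2 := hdeg' M t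
      rcases hx : φ (Sum.inr t) with q | s
      · rw [hx] at h1
        have h3 := hdeg M' q
        omega
      · exact ⟨s, rfl⟩
  obtain ⟨h1, h2⟩ := key φ
  obtain ⟨h1', h2'⟩ := key φ.symm
  choose π hπ using h1
  choose τ hτ using h2
  choose π' hπ' using h1'
  choose τ' hτ' using h2'
  refine ⟨⟨π, π', fun p => ?_, fun p => ?_⟩, ⟨τ, τ', fun p => ?_, fun p => ?_⟩, fun p t => ?_⟩
  · apply Sum.inl_injective (β := Fin (blocks M).length)
    rw [← hπ', ← hπ, RelIso.symm_apply_apply]
  · apply Sum.inl_injective (β := Fin (blocks M').length)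
    rw [← hπ, ← hπ', RelIso.apply_symm_apply]
  · apply Sum.inr_injective (α := Fin (M.length + 4))
    rw [← hτ', ← hτ, RelIso.symm_apply_apply]
  · apply Sum.inr_injective (α := Fin (M'.length + 4))
    rw [← hτ, ← hτ', RelIso.apply_symm_apply]
  · have h3 : (dg (incL (M'.length + 4) (blocks M'))).Adj (φ (Sum.inl p)) (φ (Sum.inr t)) ↔
        (dg (incL (M.length + 4) (blocks M))).Adj (Sum.inl p) (Sum.inr t) := φ.map_adj_iff
    rw [hπ, hτ] at h3
    exact h3

end Pool.Agent.H677.FE
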