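import Pool.Agent.H677.FE.Recover

/-!
# The graph of the completed design: eigenvalues, connectedness, split partition
-/

set_option autoImplicit false
set_option linter.unusedSectionVars false

namespace Pool.Agent.H677.FE

open Finset Pool.Agent.NPC.UB129 Pool.Agent.NPC.R671

theorem sum_Nm (v : ℕ) (bl : List (List ℕ)) (p q : Fin v) :
    ∑ t, Nm (incL v bl) p t * Nm (incL v bl) q t = (cov bl p q : ℝ) := by
  classical
  have h1 : ∀ t : Fin bl.length, Nm (incL v bl) p t * Nm (incL v bl) q t =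
      if ((p : ℕ) ∈ bl[t] ∧ (q : ℕ) ∈ bl[t]) then 1 else 0 := by
    intro t
    unfold Nm incL
    by_cases h : (p : ℕ) ∈ bl[t]
    · by_cases h' : (q : ℕ) ∈ bl[t]
      · rw [if_pos h, if_pos h', if_pos ⟨h, h'⟩, one_mul]
      · have h2 : ¬ ((p : ℕ) ∈ bl[t] ∧ (q : ℕ) ∈ bl[t]) := fun h'' => h' h''.2
        rw [if_neg h', if_neg h2, mul_zero]
    · have h2 : ¬ ((p : ℕ) ∈ bl[t] ∧ (q : ℕ) ∈ bl[t]) := fun h'' => h h''.1
      rw [if_neg h, if_neg h2, zero_mul]
  simp only [h1]
  rw [Finset.sum_boole]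
  congr 1
  have h2 := card_pos (fun B : List ℕ => (p : ℕ) ∈ B ∧ (q : ℕ) ∈ B) bl
  rw [Fintype.card_subtype] at h2
  rw [h2]
  unfold cov
  congr 2
  funext B
  exact Bool.decide_and _ _

theorem index_eq {M : Mat} {p q : Fin (M.length + 4)} (h : p ≠ q) :
    ∑ t, Nm (incL (M.length + 4) (blocks M)) p t * Nm (incL (M.length + 4) (blocks M)) q t =
      ((2 * ell M.length : ℕ) : ℝ) := by
  rw [sum_Nm, blocks, cov_comp (base_length M) p.isLt q.isLt fun h' => h (Fin.ext h')]

theorem replication_eq {M : Mat} (p : Fin (M.length + 4)) :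
    ∑ t, Nm (incL (M.length + 4) (blocks M)) p t * Nm (incL (M.length + 4) (blocks M)) p t =
      ((2 * ell M.length : ℕ) : ℝ) ^ 2 := by
  rw [sum_Nm, blocks, rep_comp (base_length M) (ell_pos M.length).1 p.isLt, sq, Nat.cast_mul]

/-- There are more blocks than points. -/
theorem more_blocks (M : Mat) : M.length + 4 < (blocks M).length := by
  classical
  have h1 : ∑ p : Fin (M.length + 4), ∑ t : Fin (blocks M).length,
      Nm (incL (M.length + 4) (blocks M)) p t * Nm (incL (M.length + 4) (blocks M)) p t =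
      (M.length + 4 : ℕ) * ((2 * ell M.length : ℕ) : ℝ) ^ 2 := by
    simp only [replication_eq]
    rw [Finset.sum_const, Finset.card_univ, Fintype.card_fin, nsmul_eq_mul]
  rw [Finset.sum_comm] at h1
  have h2 : ∀ t : Fin (blocks M).length, ∑ p : Fin (M.length + 4),
      Nm (incL (M.length + 4) (blocks M)) p t * Nm (incL (M.length + 4) (blocks M)) p t ≤ 4 := by
    intro t
    have h3 : ∀ p : Fin (M.length + 4), Nm (incL (M.length + 4) (blocks M)) p t *
        Nm (incL (M.length + 4) (blocks M)) p t = if (p : ℕ) ∈ (blocks M)[t] then 1 else 0 := by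
      intro p
      unfold Nm incL
      by_cases h : (p : ℕ) ∈ (blocks M)[t]
      · rw [if_pos h, if_pos h, one_mul]
      · rw [if_neg h, if_neg h, zero_mul]
    simp only [h3]
    rw [Finset.sum_boole]
    have h4 := (card_pts_le (M.length + 4) (blocks M)[t]).trans
      (length_le_of_mem (List.getElem_mem t.isLt))
    exact_mod_cast h4
  have h3 : ((M.length + 4 : ℕ) : ℝ) * ((2 * ell M.length : ℕ) : ℝ) ^ 2 ≤
      (blocks M).length * 4 := by
    rw [← h1]
    refine (Finset.sum_le_sum fun t _ => h2 t).trans ?_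
    rw [Finset.sum_const, Finset.card_univ, Fintype.card_fin, nsmul_eq_mul]
  have h4 : (M.length + 4) * (2 * ell M.length) ^ 2 ≤ (blocks M).length * 4 := by
    exact_mod_cast h3
  have h5 := (ell_pos M.length).2
  have h6 : 6 ^ 2 ≤ (2 * ell M.length) ^ 2 := Nat.pow_le_pow_left (by omega) 2
  have h7 : (M.length + 4) * 6 ^ 2 ≤ (M.length + 4) * (2 * ell M.length) ^ 2 :=
    Nat.mul_le_mul_left _ h6
  omega

/-- The four eigenvalues. -/
def spectrum4 (n : ℕ) : Finset ℤ :=
  {-(2 * (ell n : ℤ)), (n : ℤ) + 4 + 2 * ell n - 1, 2 * (ell n : ℤ) - 1, 0}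

theorem card_spectrum4 (n : ℕ) : (spectrum4 n).card = 4 := by
  have h := (ell_pos n).2
  unfold spectrum4
  rw [Finset.card_insert_of_notMem, Finset.card_insert_of_notMem, Finset.card_insert_of_notMem,
    Finset.card_singleton]
  · rw [Finset.mem_singleton]
    omega
  · rw [Finset.mem_insert, Finset.mem_singleton]
    omega
  · rw [Finset.mem_insert, Finset.mem_insert, Finset.mem_singleton]
    omega

theorem eigenvalues_DG (M : Mat) (θ : ℝ) :
    IsEigenvalue (DG M) θ ↔ ∃ k ∈ spectrum4 M.length, θ = (k : ℤ) := by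
  have hl := (ell_pos M.length).2
  have hl' : (1 : ℝ) < ((2 * ell M.length : ℕ) : ℝ) := by
    exact_mod_cast (by omega : 1 < 2 * ell M.length)
  have h0 : (⟨0, by omega⟩ : Fin (M.length + 4)) ≠ ⟨1, by omega⟩ := by simp
  have h := eigenvalues (inc := incL (M.length + 4) (blocks M))
    (l := ((2 * ell M.length : ℕ) : ℝ)) (fun p q hpq => index_eq hpq) replication_eq hl' h0
    (by rw [Fintype.card_fin, Fintype.card_fin]; exact more_blocks M) θ
  unfold DG
  rw [h]
  unfold spectrum4
  simp only [Finset.mem_insert, Finset.mem_singleton, exists_eq_or_imp, exists_eq_left,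
    Fintype.card_fin]
  push_cast
  rfl

theorem split_DG (M : Mat) :
    ∃ S : Set (Fin (M.length + 4) ⊕ Fin (blocks M).length),
      (DG M).IsClique S ∧ (DG M).IsIndepSet Sᶜ := by
  refine ⟨Set.range Sum.inl, ?_, ?_⟩
  · rintro _ ⟨p, rfl⟩ _ ⟨q, rfl⟩ h
    exact fun h' => h (congrArg Sum.inl h')
  · rintro (p | t) hp (q | s) hq _
    · exact absurd ⟨p, rfl⟩ hp
    · exact absurd ⟨p, rfl⟩ hp
    · exact absurd ⟨q, rfl⟩ hq
    · exact id

theorem connected_DG (M : Mat) : (DG M).Connected := by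
  have hp0 : 0 < M.length + 4 := by omega
  have h1 : ∀ p : Fin (M.length + 4), (DG M).Reachable (Sum.inl ⟨0, hp0⟩) (Sum.inl p) := by
    intro p
    by_cases h : (⟨0, hp0⟩ : Fin (M.length + 4)) = p
    · rw [h]
    · exact SimpleGraph.Adj.reachable (G := DG M) h
  have h2 : ∀ x, (DG M).Reachable (Sum.inl ⟨0, hp0⟩) x := by
    rintro (p | t)
    · exact h1 p
    · obtain ⟨x, hx⟩ := exists_mem (List.getElem_mem t.isLt : (blocks M)[(t : ℕ)] ∈ blocks M)
      have hx' := lt_of_mem (List.getElem_mem t.isLt : (blocks M)[(t : ℕ)] ∈ blocks M) hx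
      refine (h1 ⟨x, hx'⟩).trans (SimpleGraph.Adj.reachable (G := DG M) ?_)
      exact hx
  haveI : Nonempty (Fin (M.length + 4) ⊕ Fin (blocks M).length) := ⟨Sum.inl ⟨0, hp0⟩⟩
  exact SimpleGraph.Connected.mk fun x y => (h2 x).symm.trans (h2 y)

end Pool.Agent.H677.FE
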