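import Pool.Agent.H677.FE.Design

/-!
# The graph is determined by its design
-/

set_option autoImplicit false
set_option linter.unusedSectionVars false

namespace Pool.Agent.H677.FE

open Finset Pool.Agent.NPC.UB129 Pool.Agent.NPC.R671

/-- Isomorphic incidence relations have isomorphic graphs. -/
def dgIso {P B P' B' : Type} {inc : P → B → Prop} {inc' : P' → B' → Prop} (π : P ≃ P')
    (τ : B ≃ B') (h : ∀ p t, inc' (π p) (τ t) ↔ inc p t) : dg inc ≃g dg inc' where
  toEquiv := Equiv.sumCongr π τ
  map_rel_iff' := by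
    rintro (p | t) (q | s)
    · exact not_congr π.injective.eq_iff
    · exact h p s
    · exact h q t
    · exact Iff.rfl

theorem fin_iff {M : Mat} (p : Fin (M.length + 4)) : M.length ≤ (p : ℕ) ↔
    ∃ t : Fin (blocks M).length, incL _ (blocks M) p t ∧
      4 ≤ (pts (M.length + 4) (blocks M)[t]).card := by
  constructor
  · intro h
    have h1 : [M.length, M.length + 1, M.length + 2, M.length + 3] ∈ blocks M :=
      subset_comp (mem_base.2 (Or.inl rfl))
    obtain ⟨i, hi, h2⟩ := List.getElem_of_mem h1
    refine ⟨⟨i, hi⟩, ?_, ?_⟩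
    · show (p : ℕ) ∈ (blocks M)[i]
      rw [h2]
      have := p.isLt
      simp only [List.mem_cons, List.not_mem_nil, or_false]
      omega
    · show 4 ≤ (pts (M.length + 4) (blocks M)[i]).card
      rw [h2, card_four]
  · rintro ⟨t, h1, h2⟩
    have h3 := four_of (List.getElem_mem t.isLt) h2
    have h4 : (p : ℕ) ∈ (blocks M)[(t : ℕ)] := h1
    rw [h3] at h4
    simp only [List.mem_cons, List.not_mem_nil, or_false] at h4
    omega

theorem edge_iff {M : Mat} {p q : Fin (M.length + 4)} (hp : (p : ℕ) < M.length)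
    (hq : (q : ℕ) < M.length) (hpq : p ≠ q) : (ent M p q = true ∨ ent M q p = true) ↔
    ∃ t : Fin (blocks M).length, incL _ (blocks M) p t ∧ incL _ (blocks M) q t ∧
      (pts (M.length + 4) (blocks M)[t]).card = 3 := by
  have hpq' : (p : ℕ) ≠ q := fun h => hpq (Fin.ext h)
  constructor
  · have key : ∀ u w : ℕ, u < M.length → w < M.length → u ≠ w → ent M u w = true →
        ∃ t : Fin (blocks M).length, u ∈ (blocks M)[t] ∧ w ∈ (blocks M)[t] ∧
          (pts (M.length + 4) (blocks M)[t]).card = 3 := by
      intro u w hu hw huw he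
      have h1 : [u, w, M.length] ∈ blocks M :=
        subset_comp (mem_base.2 (Or.inr ⟨u, w, hu, hw, he, rfl⟩))
      obtain ⟨i, hi, h2⟩ := List.getElem_of_mem h1
      refine ⟨⟨i, hi⟩, ?_, ?_, ?_⟩
      · show u ∈ (blocks M)[i]
        rw [h2]
        simp
      · show w ∈ (blocks M)[i]
        rw [h2]
        simp
      · show (pts (M.length + 4) (blocks M)[i]).card = 3
        rw [h2, card_pts]
        · rfl
        · intro x hx
          simp only [List.mem_cons, List.not_mem_nil, or_false] at hx
          omega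
        · simp only [List.nodup_cons, List.mem_cons, List.not_mem_nil, or_false,
            not_false_eq_true, List.nodup_nil, and_true]
          omega
    rintro (h | h)
    · exact key p q hp hq hpq' h
    · obtain ⟨t, h1, h2, h3⟩ := key q p hq hp hpq'.symm h
      exact ⟨t, h2, h1, h3⟩
  · rintro ⟨t, h1, h2, h3⟩
    obtain ⟨u, w, hu, hw, he, h4⟩ := three_of (List.getElem_mem t.isLt) h3
    have h5 : (p : ℕ) ∈ (blocks M)[(t : ℕ)] := h1
    have h6 : (q : ℕ) ∈ (blocks M)[(t : ℕ)] := h2
    rw [h4] at h5 h6
    simp only [List.mem_cons, List.not_mem_nil, or_false] at h5 h6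
    rcases h5 with h5 | h5 | h5
    · rcases h6 with h6 | h6 | h6
      · omega
      · left
        rw [h5, h6]
        exact he
      · omega
    · rcases h6 with h6 | h6 | h6
      · right
        rw [h5, h6]
        exact he
      · omega
      · omega
    · omega

theorem card_pts_equiv {v v' : ℕ} {bl bl' : List (List ℕ)} {π : Fin v ≃ Fin v'}
    {τ : Fin bl.length ≃ Fin bl'.length} (h : ∀ p t, incL v' bl' (π p) (τ t) ↔ incL v bl p t)
    (t : Fin bl.length) : (pts v' bl'[τ t]).card = (pts v bl[t]).card := by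
  have h1 : pts v' bl'[τ t] = (pts v bl[t]).map π.toEmbedding := by
    ext x
    rw [Finset.mem_map]
    constructor
    · intro hx
      refine ⟨π.symm x, ?_, π.apply_symm_apply x⟩
      rw [mem_pts] at hx ⊢
      have h2 := h (π.symm x) t
      rw [π.apply_symm_apply] at h2
      exact h2.1 hx
    · rintro ⟨p, hp, rfl⟩
      rw [mem_pts] at hp ⊢
      exact (h p t).2 hp
  rw [h1, Finset.card_map]

/-- The graph of the completed design of a graph. -/
def DG (M : Mat) : SimpleGraph (Fin (M.length + 4) ⊕ Fin (blocks M).length) :=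
  dg (incL (M.length + 4) (blocks M))

/-- An isomorphism of the designs of two graphs induces an isomorphism of the graphs. -/
theorem recover {n n' : ℕ} {G : SimpleGraph (Fin n)} {H : SimpleGraph (Fin n')}
    (φ : DG (adjMatrix G) ≃g DG (adjMatrix H)) : Nonempty (G ≃g H) := by
  obtain ⟨π, τ, h⟩ := split_iso φ
  have hlen : (adjMatrix G).length = n := length_adjMatrix G
  have hlen' : (adjMatrix H).length = n' := length_adjMatrix H
  have hn : n = n' := by
    have h1 := Fintype.card_congr π
    simp only [Fintype.card_fin] at h1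
    omega
  subst hn
  have hinf : ∀ p, (adjMatrix H).length ≤ (π p : ℕ) ↔ (adjMatrix G).length ≤ (p : ℕ) := by
    intro p
    rw [fin_iff, fin_iff]
    constructor
    · rintro ⟨t, h1, h2⟩
      obtain ⟨s, rfl⟩ := τ.surjective t
      refine ⟨s, (h p s).1 h1, ?_⟩
      rw [← card_pts_equiv h s]
      exact h2
    · rintro ⟨t, h1, h2⟩
      refine ⟨τ t, (h p t).2 h1, ?_⟩
      rw [card_pts_equiv h t]
      exact h2
  have hlt : ∀ u : Fin n, (u : ℕ) < (adjMatrix G).length + 4 := fun u => by
    have := u.isLt
    omega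
  have hπ : ∀ u : Fin n, (π ⟨u, hlt u⟩ : ℕ) < n := by
    intro u
    have h1 := (hinf ⟨u, hlt u⟩).not
    rw [not_le, not_le] at h1
    exact (h1.2 (u.isLt.trans_eq hlen.symm)).trans_eq hlen'
  let f : Fin n → Fin n := fun u => ⟨π ⟨u, hlt u⟩, hπ u⟩
  have hf : Function.Injective f := by
    intro u w huw
    have h1 : (π ⟨u, hlt u⟩ : ℕ) = π ⟨w, hlt w⟩ := congrArg (fun x : Fin n => (x : ℕ)) huw
    have h2 := π.injective (Fin.ext h1)
    exact Fin.ext (congrArg (fun x : Fin ((adjMatrix G).length + 4) => (x : ℕ)) h2)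
  have hadj : ∀ u w : Fin n, H.Adj (f u) (f w) ↔ G.Adj u w := by
    intro u w
    by_cases huw : u = w
    · subst huw
      exact iff_of_false (H.irrefl) (G.irrefl)
    · have e1 : G.Adj u w ↔ (ent (adjMatrix G) u w = true ∨ ent (adjMatrix G) w u = true) := by
        rw [ent_adjMatrix, ent_adjMatrix]
        exact ⟨Or.inl, fun h' => h'.elim id fun h'' => h''.symm⟩
      have e2 : H.Adj (f u) (f w) ↔
          (ent (adjMatrix H) (f u) (f w) = true ∨ ent (adjMatrix H) (f w) (f u) = true) := by
        rw [ent_adjMatrix, ent_adjMatrix]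
        exact ⟨Or.inl, fun h' => h'.elim id fun h'' => h''.symm⟩
      have huw' : (⟨u, hlt u⟩ : Fin ((adjMatrix G).length + 4)) ≠ ⟨w, hlt w⟩ := by
        intro h1
        exact huw (Fin.ext (congrArg (fun x : Fin ((adjMatrix G).length + 4) => (x : ℕ)) h1))
      have e3 := edge_iff (M := adjMatrix G) (p := ⟨u, hlt u⟩) (q := ⟨w, hlt w⟩)
        (u.isLt.trans_eq hlen.symm) (w.isLt.trans_eq hlen.symm) huw'
      have e4 := edge_iff (M := adjMatrix H) (p := π ⟨u, hlt u⟩) (q := π ⟨w, hlt w⟩)
        ((hπ u).trans_eq hlen'.symm) ((hπ w).trans_eq hlen'.symm) (π.injective.ne huw')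
      rw [e1, e2]
      refine Iff.trans e4 (Iff.trans ?_ e3.symm)
      constructor
      · rintro ⟨t, h1, h2, h3⟩
        obtain ⟨s, rfl⟩ := τ.surjective t
        refine ⟨s, (h _ s).1 h1, (h _ s).1 h2, ?_⟩
        rw [← card_pts_equiv h s]
        exact h3
      · rintro ⟨t, h1, h2, h3⟩
        refine ⟨τ t, (h _ t).2 h1, (h _ t).2 h2, ?_⟩
        rw [card_pts_equiv h t]
        exact h3
  exact ⟨⟨Equiv.ofBijective f (Finite.injective_iff_bijective.1 hf), fun {a b} => hadj a b⟩⟩

/-! ### Lifting isomorphisms -/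

theorem range_perm {f : ℕ → ℕ} (hf : Function.Injective f) {v : ℕ} (h : ∀ x, x < v → f x < v) :
    ((List.range v).map f).Perm (List.range v) := by
  refine List.Subperm.perm_of_length_le ?_ (by simp)
  refine List.subperm_of_subset (List.Nodup.map hf List.nodup_range) ?_
  intro x hx
  rw [List.mem_map] at hx
  obtain ⟨y, hy, rfl⟩ := hx
  exact List.mem_range.2 (h y (List.mem_range.1 hy))

theorem base_perm {M M' : Mat} {f : ℕ → ℕ} (hf : Function.Injective f)
    (hlen : M'.length = M.length) (hlt : ∀ x, x < M.length → f x < M.length)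
    (hge : ∀ x, M.length ≤ x → f x = x)
    (hent : ∀ u w, u < M.length → w < M.length → ent M' (f u) (f w) = ent M u w) :
    (base M').Perm ((base M).map (List.map f)) := by
  have hr := range_perm hf hlt
  unfold base
  rw [hlen, List.map_cons, List.map_cons, List.map_cons, List.map_cons, List.map_cons,
    hge M.length le_rfl, hge (M.length + 1) (by omega), hge (M.length + 2) (by omega),
    hge (M.length + 3) (by omega), List.map_nil, List.perm_cons]
  refine (flatMap_perm hf hr _).trans ?_
  rw [List.map_flatMap]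
  refine List.Perm.flatMap_left _ fun u hu => ?_
  refine (flatMap_perm hf hr _).trans ?_
  rw [List.map_flatMap]
  refine List.Perm.flatMap_left _ fun w hw => ?_
  rw [hent u w (List.mem_range.1 hu) (List.mem_range.1 hw)]
  cases ent M u w
  · exact List.Perm.refl _
  · rw [cond_true, cond_true, List.map_cons, List.map_cons, List.map_cons, List.map_cons,
      List.map_nil, List.map_nil, hge M.length le_rfl]

theorem blocks_perm {M M' : Mat} {f : ℕ → ℕ} (hf : Function.Injective f)
    (hlen : M'.length = M.length) (hlt : ∀ x, x < M.length → f x < M.length)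
    (hge : ∀ x, M.length ≤ x → f x = x)
    (hent : ∀ u w, u < M.length → w < M.length → ent M' (f u) (f w) = ent M u w) :
    (blocks M').Perm ((blocks M).map (List.map f)) := by
  unfold blocks
  rw [hlen]
  refine comp_perm hf (range_perm hf fun x hx => ?_) (base_perm hf hlen hlt hge hent)
  by_cases h : x < M.length
  · have := hlt x h
    omega
  · rw [hge x (by omega)]
    exact hx

/-- Isomorphic graphs have isomorphic designs. -/
theorem lift {n : ℕ} {G H : SimpleGraph (Fin n)} (φ : G ≃g H) :
    Nonempty (DG (adjMatrix G) ≃g DG (adjMatrix H)) := by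
  have hlen : (adjMatrix G).length = n := length_adjMatrix G
  have hlen' : (adjMatrix H).length = n := length_adjMatrix H
  let f : ℕ → ℕ := fun x => if h : x < n then (φ ⟨x, h⟩ : ℕ) else x
  have hf1 : ∀ x (h : x < n), f x = φ ⟨x, h⟩ := fun x h => dif_pos h
  have hf2 : ∀ x, ¬ x < n → f x = x := fun x h => dif_neg h
  have hlt : ∀ x, x < n → f x < n := by
    intro x hx
    rw [hf1 x hx]
    exact (φ ⟨x, hx⟩).isLt
  have hf : Function.Injective f := by
    intro x y hxy
    by_cases hx : x < n
    · by_cases hy : y < n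
      · rw [hf1 x hx, hf1 y hy] at hxy
        have h1 := φ.injective (Fin.ext hxy)
        exact congrArg (fun z : Fin n => (z : ℕ)) h1
      · have := hlt x hx
        rw [hxy, hf2 y hy] at this
        exact absurd this hy
    · by_cases hy : y < n
      · have := hlt y hy
        rw [← hxy, hf2 x hx] at this
        exact absurd this hx
      · rw [hf2 x hx, hf2 y hy] at hxy
        exact hxy
  have hperm : (blocks (adjMatrix H)).Perm ((blocks (adjMatrix G)).map (List.map f)) := by
    refine blocks_perm hf (by rw [hlen, hlen']) ?_ ?_ ?_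
    · rw [hlen]
      exact hlt
    · rw [hlen]
      exact fun x hx => hf2 x (by omega)
    · rw [hlen]
      intro u w hu hw
      rw [hf1 u hu, hf1 w hw, Bool.eq_iff_iff]
      have e1 := ent_adjMatrix G ⟨u, hu⟩ ⟨w, hw⟩
      have e2 := ent_adjMatrix H (φ ⟨u, hu⟩) (φ ⟨w, hw⟩)
      exact e2.trans (φ.map_adj_iff.trans e1.symm)
  obtain ⟨e, he⟩ := exists_pos_equiv hperm.symm
  have hlt2 : ∀ p : Fin ((adjMatrix G).length + 4), f p < (adjMatrix H).length + 4 := by
    intro p
    have := p.isLt
    by_cases hp : (p : ℕ) < n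
    · have := hlt p hp
      omega
    · rw [hf2 _ hp]
      omega
  let g : Fin ((adjMatrix G).length + 4) → Fin ((adjMatrix H).length + 4) :=
    fun p => ⟨f p, hlt2 p⟩
  have hg : Function.Injective g := by
    intro p q hpq
    have h1 : f p = f q := congrArg (fun x : Fin ((adjMatrix H).length + 4) => (x : ℕ)) hpq
    exact Fin.ext (hf h1)
  have hg' : Function.Bijective g := by
    rw [Fintype.bijective_iff_injective_and_card]
    exact ⟨hg, by simp [hlen, hlen']⟩
  have hl : (blocks (adjMatrix G)).length = ((blocks (adjMatrix G)).map (List.map f)).length :=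
    (List.length_map _).symm
  refine ⟨dgIso (Equiv.ofBijective g hg') ((finCongr hl).trans e) fun p t => ?_⟩
  have h1 := he (finCongr hl t)
  have h2 : ((blocks (adjMatrix G)).map (List.map f))[finCongr hl t] =
      ((blocks (adjMatrix G))[t]).map f := by
    simp
  rw [h2] at h1
  show (f p) ∈ (blocks (adjMatrix H))[e (finCongr hl t)] ↔ (p : ℕ) ∈ (blocks (adjMatrix G))[t]
  rw [h1, List.mem_map]
  constructor
  · rintro ⟨q, hq, hqp⟩
    rw [← hf hqp]
    exact hq
  · exact fun hp => ⟨_, hp, rfl⟩

end Pool.Agent.H677.FE
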