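import Pool.Agent.H677.FE.Props

/-!
# The reduction is computable in polynomial time
-/

set_option autoImplicit false
set_option linter.unusedSectionVars false

namespace Pool.Agent.NPC.FE677

open Pool.Agent.H677.FE Pool.Agent.NPC.UB129 Pool.Agent.NPC.R671

/-! ### A general principle -/

/-- The pair of images of a string: invalid strings are mapped to a fixed pair. -/
def gmap (red : Mat → Mat) (x : List Bool) : Mat × Mat :=
  (unbits (Mat × Mat) x).elim (red [], red [[false]]) fun p =>
    bif valid p.1 && valid p.2 then (red p.1, red p.2) else (red [], red [[false]])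

theorem poly_gmap {red : Mat → Mat} (hred : Poly red) : Poly (gmap red) := by
  unfold gmap
  refine Poly.optElim (h := fun _ (p : Mat × Mat) => bif valid p.1 && valid p.2 then
    (red p.1, red p.2) else (red [], red [[false]])) poly_unbits (Poly.const _) ?_
  refine Poly.cond ?_ ?_ (Poly.const _)
  · exact (poly_valid.comp (Poly.fst (Poly.snd Poly.id))).and
      (poly_valid.comp (Poly.snd (Poly.snd Poly.id)))
  · exact Poly.pair (hred.comp (Poly.fst (Poly.snd Poly.id)))
      (hred.comp (Poly.snd (Poly.snd Poly.id)))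

theorem gmap_spec {red : Mat → Mat} {N : ∀ n, SimpleGraph (Fin n) → ℕ}
    {T : ∀ n (G : SimpleGraph (Fin n)), SimpleGraph (Fin (N n G))}
    (hadj : ∀ n G, red (adjMatrix G) = adjMatrix (T n G))
    (hiff : ∀ (n n' : ℕ) (G : SimpleGraph (Fin n)) (H : SimpleGraph (Fin n')),
      Nonempty (T n G ≃g T n' H) ↔ Nonempty (G ≃g H)) (x : List Bool) :
    ∃ (n n' : ℕ) (G : SimpleGraph (Fin n)) (H : SimpleGraph (Fin n')),
      gmap red x = (adjMatrix (T n G), adjMatrix (T n' H)) ∧
      (x ∈ GI ↔ Nonempty (T n G ≃g T n' H)) := by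
  have e0 : adjMatrix (⊥ : SimpleGraph (Fin 0)) = [] := by simp [adjMatrix]
  have e1 : adjMatrix (⊥ : SimpleGraph (Fin 1)) = [[false]] := by simp [adjMatrix]
  have hbad : x ∉ GI → gmap red x = (red [], red [[false]]) →
      ∃ (n n' : ℕ) (G : SimpleGraph (Fin n)) (H : SimpleGraph (Fin n')),
      gmap red x = (adjMatrix (T n G), adjMatrix (T n' H)) ∧
      (x ∈ GI ↔ Nonempty (T n G ≃g T n' H)) := by
    intro hx hg
    refine ⟨0, 1, ⊥, ⊥, ?_, ?_⟩
    · have h0 := hadj 0 ⊥
      have h1 := hadj 1 ⊥
      rw [e0] at h0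
      rw [e1] at h1
      rw [hg, h0, h1]
    · rw [hiff]
      refine iff_of_false hx ?_
      rintro ⟨φ⟩
      exact (φ.symm 0).elim0
  cases hu : unbits (Mat × Mat) x with
  | none =>
    refine hbad ?_ (by unfold gmap; rw [hu]; rfl)
    rintro ⟨n, m, G, H, rfl, _⟩
    rw [unbits_bits] at hu
    exact absurd hu (by simp)
  | some p =>
    obtain ⟨M, M'⟩ := p
    have hx := bits_of_unbits hu
    by_cases hv : valid M = true ∧ valid M' = true
    · obtain ⟨n, G, hG⟩ := (valid_iff M).1 hv.1
      obtain ⟨n', H, hH⟩ := (valid_iff M').1 hv.2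
      refine ⟨n, n', G, H, ?_, ?_⟩
      · unfold gmap
        rw [hu, Option.elim_some, hv.1, hv.2]
        simp only [Bool.and_self, cond_true]
        rw [← hG, ← hH, hadj, hadj]
      · rw [hiff, ← hx, ← hG, ← hH, mem_GI]
    · refine hbad ?_ ?_
      · rintro ⟨n, m, G, H, h, _⟩
        rw [← hx] at h
        have h1 := bits_injective h
        rw [Prod.mk.injEq] at h1
        exact hv ⟨(valid_iff M).2 ⟨n, G, h1.1.symm⟩, (valid_iff M').2 ⟨m, H, h1.2.symm⟩⟩
      · unfold gmap
        rw [hu, Option.elim_some]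
        have : (valid M && valid M') = false := by
          rw [Bool.eq_false_iff]
          intro h
          rw [Bool.and_eq_true] at h
          exact hv h
        simp only [this, cond_false]

/-- **A class that contains the images of all graphs under a polynomial-time map which preserves and
reflects isomorphism is complete.** -/
theorem complete {red : Mat → Mat} {N : ∀ n, SimpleGraph (Fin n) → ℕ}
    {T : ∀ n (G : SimpleGraph (Fin n)), SimpleGraph (Fin (N n G))} (hred : Poly red)
    (hadj : ∀ n G, red (adjMatrix G) = adjMatrix (T n G))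
    (hiff : ∀ (n n' : ℕ) (G : SimpleGraph (Fin n)) (H : SimpleGraph (Fin n')),
      Nonempty (T n G ≃g T n' H) ↔ Nonempty (G ≃g H))
    (𝒞 : (n : ℕ) → SimpleGraph (Fin n) → Prop) (hB : ∀ n G, 𝒞 _ (T n G)) :
    (∃ (N : ∀ n, SimpleGraph (Fin n) → ℕ)
        (T : ∀ n (G : SimpleGraph (Fin n)), SimpleGraph (Fin (N n G)))
        (F : List Bool → List Bool), PolyTime F ∧
      (∀ n G, F (bits (adjMatrix G)) = bits (adjMatrix (T n G))) ∧
      (∀ n G, 𝒞 _ (T n G)) ∧
      ∀ n m G H, Nonempty (T n G ≃g T m H) ↔ Nonempty (G ≃g H)) ∧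
    ((∃ A : List Bool → List Bool, PolyTime A ∧
        ∀ (n m : ℕ) (G : SimpleGraph (Fin n)) (H : SimpleGraph (Fin m)),
          𝒞 n G → 𝒞 m H →
          (A (bits (adjMatrix G, adjMatrix H)) = [true] ↔ Nonempty (G ≃g H))) ↔ InP GI) ∧
    ((∀ L : Set (List Bool), InNP L → ∃ g : List Bool → List Bool, PolyTime g ∧
        ∀ x, ∃ (n m : ℕ) (G : SimpleGraph (Fin n)) (H : SimpleGraph (Fin m)),
          𝒞 n G ∧ 𝒞 m H ∧ g x = bits (adjMatrix G, adjMatrix H) ∧
          (x ∈ L ↔ Nonempty (G ≃g H))) ↔ NPHard GI) := by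
  refine ⟨⟨N, T, _, polyTime_opt (Poly.optMap (o := unbits Mat)
    (f := fun _ M => red M) poly_unbits (hred.comp (Poly.snd Poly.id))), ?_,
    hB, hiff⟩, ?_, ?_⟩
  · intro n G
    simp only [unbits_bits, Option.map_some, hadj]
  · constructor
    · rintro ⟨A, hA, h⟩
      refine ⟨fun x => A (bits (gmap red x)), H642R2.TMSim.polyTime_comp hA
        (polyTime_bits (poly_gmap hred)), fun x => ?_⟩
      obtain ⟨n, n', G, H, h1, h2⟩ := gmap_spec hadj hiff x
      show x ∈ GI ↔ A (bits (gmap red x)) = [true]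
      rw [h2, h1, h _ _ _ _ (hB _ _) (hB _ _)]
    · rintro ⟨A, hA, h⟩
      exact ⟨A, hA, fun n m G H _ _ => by rw [← h, mem_GI]⟩
  · constructor
    · intro h L hL
      obtain ⟨g, hg, h1⟩ := h L hL
      refine ⟨g, hg, fun x => ?_⟩
      obtain ⟨n, m, G, H, _, _, h2, h3⟩ := h1 x
      rw [h2, mem_GI, h3]
    · intro h L hL
      obtain ⟨f, hf, hfL⟩ := h L hL
      have hpt : PolyTime (fun x => bits (gmap red (f x))) :=
        H642R2.TMSim.polyTime_comp (g := fun x => bits (gmap red x)) (f := f)
          (polyTime_bits (poly_gmap hred)) hf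
      refine ⟨fun x => bits (gmap red (f x)), hpt, fun x => ?_⟩
      obtain ⟨n, n', G, H, h1, h2⟩ := gmap_spec hadj hiff (f x)
      exact ⟨_, _, T n G, T n' H, hB _ _, hB _ _, congrArg bits h1, (hfL x).trans h2⟩

/-! ### The map -/

/-- The number of vertices. -/
def num (M : Mat) : ℕ := M.length + 4 + (blocks M).length

/-- The graph, on numbered vertices. -/
noncomputable def TG (n : ℕ) (G : SimpleGraph (Fin n)) : SimpleGraph (Fin (num (adjMatrix G))) :=
  (DG (adjMatrix G)).comap finSumFinEquiv.symm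

/-- The numbering is an isomorphism. -/
noncomputable def TGiso (n : ℕ) (G : SimpleGraph (Fin n)) : TG n G ≃g DG (adjMatrix G) :=
  SimpleGraph.Iso.comap finSumFinEquiv.symm _

theorem TG_iff (n n' : ℕ) (G : SimpleGraph (Fin n)) (H : SimpleGraph (Fin n')) :
    Nonempty (TG n G ≃g TG n' H) ↔ Nonempty (G ≃g H) := by
  constructor
  · rintro ⟨φ⟩
    exact recover (((TGiso n G).symm.trans φ).trans (TGiso n' H))
  · rintro ⟨φ⟩
    have h1 : n = n' := by
      have := Fintype.card_congr φ.toEquiv
      simpa using this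
    subst h1
    obtain ⟨ψ⟩ := lift φ
    exact ⟨((TGiso n G).trans ψ).trans (TGiso n H).symm⟩

/-- The test for adjacency. -/
def adjT (v : ℕ) (bl : List (List ℕ)) (s t : ℕ) : Bool :=
  bif decide (s < v) then
    (bif decide (t < v) then !decide (s = t) else decide (s ∈ bl.getD (t - v) []))
  else (bif decide (t < v) then decide (t ∈ bl.getD (s - v) []) else false)

/-- The adjacency matrix. -/
def redT (M : Mat) : Mat :=
  (List.range (num M)).map fun s => (List.range (num M)).map fun t =>
    adjT (M.length + 4) (blocks M) s t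

theorem symm_lt {a b : ℕ} (s : Fin (a + b)) (h : (s : ℕ) < a) :
    finSumFinEquiv.symm s = Sum.inl ⟨s, h⟩ := by
  rw [Equiv.symm_apply_eq]
  exact Fin.ext rfl

theorem symm_ge {a b : ℕ} (s : Fin (a + b)) (h : ¬ (s : ℕ) < a) (h0 : (s : ℕ) - a < b) :
    finSumFinEquiv.symm s = Sum.inr ⟨s - a, h0⟩ := by
  rw [Equiv.symm_apply_eq]
  refine Fin.ext ?_
  rw [finSumFinEquiv_apply_right]
  simp only [Fin.natAdd_mk]
  omega

theorem adjT_iff {v : ℕ} {bl : List (List ℕ)} (s t : Fin (v + bl.length)) :
    adjT v bl s t = true ↔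
      (dg (incL v bl)).Adj (finSumFinEquiv.symm s) (finSumFinEquiv.symm t) := by
  unfold adjT
  by_cases hs : (s : ℕ) < v
  · by_cases ht : (t : ℕ) < v
    · rw [symm_lt s hs, symm_lt t ht, decide_eq_true hs, decide_eq_true ht, cond_true, cond_true,
        Bool.not_eq_true', decide_eq_false_iff_not]
      exact not_congr (by rw [Fin.ext_iff])
    · have h0 : (t : ℕ) - v < bl.length := by omega
      rw [symm_lt s hs, symm_ge t ht h0, decide_eq_true hs, decide_eq_false ht, cond_true,
        cond_false, decide_eq_true_iff, List.getD_eq_getElem _ _ h0]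
      rfl
  · have h0 : (s : ℕ) - v < bl.length := by omega
    by_cases ht : (t : ℕ) < v
    · rw [symm_ge s hs h0, symm_lt t ht, decide_eq_false hs, decide_eq_true ht, cond_false,
        cond_true, decide_eq_true_iff, List.getD_eq_getElem _ _ h0]
      rfl
    · have h1 : (t : ℕ) - v < bl.length := by omega
      rw [symm_ge s hs h0, symm_ge t ht h1, decide_eq_false hs, decide_eq_false ht, cond_false,
        cond_false]
      exact iff_of_false (by simp) id

theorem adjMatrix_of_test {N : ℕ} (K : SimpleGraph (Fin N)) (f : ℕ → ℕ → Bool)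
    (h : ∀ s t : Fin N, f s t = true ↔ K.Adj s t) :
    ((List.range N).map fun s => (List.range N).map fun t => f s t) = adjMatrix K := by
  classical
  unfold adjMatrix
  refine List.ext_getElem (by simp) fun i h1 h2 => ?_
  rw [List.getElem_map, List.getElem_ofFn, List.getElem_range]
  refine List.ext_getElem (by simp) fun j h3 h4 => ?_
  rw [List.getElem_map, List.getElem_ofFn, List.getElem_range]
  have hi : i < N := by simpa using h1
  have hj : j < N := by simpa using h3
  refine Bool.eq_iff_iff.2 (Iff.trans ?_ (@decide_eq_true_iff _ (_)).symm)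
  exact h ⟨i, hi⟩ ⟨j, hj⟩

theorem redT_adjMatrix (n : ℕ) (G : SimpleGraph (Fin n)) :
    redT (adjMatrix G) = adjMatrix (TG n G) :=
  adjMatrix_of_test (TG n G) (adjT ((adjMatrix G).length + 4) (blocks (adjMatrix G)))
    fun s t => adjT_iff (v := (adjMatrix G).length + 4) (bl := blocks (adjMatrix G)) s t

/-! ### Polynomial time -/

section poly

variable {α : Type} [TEnc α]

theorem poly_replicate {β : Type} [TEnc β] {n : α → ℕ} {x : α → β} (hn : UPoly n) (hx : Poly x) :
    Poly fun a => List.replicate (n a) (x a) :=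
  (Poly.map (l := fun a => List.replicate (n a) ()) (F := fun a _ => x a) hn
    (hx.comp (Poly.fst Poly.id))).congr fun a => by simp

theorem poly_cov : Poly (fun p : List (List ℕ) × ℕ × ℕ => cov p.1 p.2.1 p.2.2) := by
  unfold cov
  refine (UPoly.length (Poly.filter (l := fun p : List (List ℕ) × ℕ × ℕ => p.1)
    (p := fun p B => decide (p.2.1 ∈ B) && decide (p.2.2 ∈ B)) (Poly.fst Poly.id) ?_)).toPoly
  exact (Poly.decide_mem (Poly.fst (Poly.snd (Poly.fst Poly.id))) (Poly.snd Poly.id)).and
    (Poly.decide_mem (Poly.snd (Poly.snd (Poly.fst Poly.id))) (Poly.snd Poly.id))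

theorem poly_rep : Poly (fun p : List (List ℕ) × ℕ => rep p.1 p.2) := by
  unfold rep
  refine (UPoly.length (Poly.filter (l := fun p : List (List ℕ) × ℕ => p.1)
    (p := fun p B => decide (p.2 ∈ B)) (Poly.fst Poly.id) ?_)).toPoly
  exact Poly.decide_mem (Poly.snd (Poly.fst Poly.id)) (Poly.snd Poly.id)

theorem poly_fill2 {v l : α → ℕ} {bl : α → List (List ℕ)} (hv : UPoly v) (hl : UPoly l)
    (hbl : Poly bl) : Poly fun a => fill2 (v a) (l a) (bl a) := by
  unfold fill2
  refine Poly.flatMap (l := fun a => List.range (v a)) (F := fun a p =>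
    (List.range (v a)).flatMap fun q =>
      bif decide (p = q) then [] else List.replicate (l a - cov (bl a) p q) [p, q]) hv.range ?_
  refine Poly.flatMap (l := fun x : α × ℕ => List.range (v x.1)) (F := fun x q =>
      bif decide (x.2 = q) then [] else List.replicate (l x.1 - cov (bl x.1) x.2 q) [x.2, q])
    (hv.range.comp (Poly.fst Poly.id)) ?_
  have p1 : Poly fun x : (α × ℕ) × ℕ => x.1.2 := Poly.snd (Poly.fst Poly.id)
  have p2 : Poly fun x : (α × ℕ) × ℕ => x.2 := Poly.snd Poly.id
  have pa : Poly fun x : (α × ℕ) × ℕ => x.1.1 := Poly.fst (Poly.fst Poly.id)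
  refine Poly.cond (Poly.decide_eq p1 p2) (Poly.const _) (poly_replicate ?_ ?_)
  · refine UPoly.of_le (n := fun x : (α × ℕ) × ℕ => l x.1.1) ?_ (hl.comp pa)
      fun x => Nat.sub_le _ _
    have h1 : Poly fun x : (α × ℕ) × ℕ => l x.1.1 := hl.toPoly.comp pa
    have h2 : Poly fun x : (α × ℕ) × ℕ => cov (bl x.1.1) x.1.2 x.2 :=
      poly_cov.comp (f := fun x : (α × ℕ) × ℕ => (bl x.1.1, x.1.2, x.2))
        (Poly.pair (hbl.comp pa) (Poly.pair p1 p2))
    exact Poly.sub h1 h2
  · exact Poly.cons p1 (Poly.cons p2 (Poly.const _))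

theorem poly_fill1 {v k : α → ℕ} {bl : α → List (List ℕ)} (hv : UPoly v) (hk : UPoly k)
    (hbl : Poly bl) : Poly fun a => fill1 (v a) (k a) (bl a) := by
  unfold fill1
  refine Poly.flatMap (l := fun a => List.range (v a)) (F := fun a p =>
    List.replicate (k a - rep (bl a) p) [p]) hv.range ?_
  have p2 : Poly fun x : α × ℕ => x.2 := Poly.snd Poly.id
  have pa : Poly fun x : α × ℕ => x.1 := Poly.fst Poly.id
  refine poly_replicate ?_ (Poly.cons p2 (Poly.const _))
  refine UPoly.of_le (n := fun x : α × ℕ => k x.1) ?_ (hk.comp pa) fun x => Nat.sub_le _ _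
  have h1 : Poly fun x : α × ℕ => k x.1 := hk.toPoly.comp pa
  have h2 : Poly fun x : α × ℕ => rep (bl x.1) x.2 :=
    poly_rep.comp (f := fun x : α × ℕ => (bl x.1, x.2)) (Poly.pair (hbl.comp pa) p2)
  exact Poly.sub h1 h2

theorem poly_comp2 {v l : α → ℕ} {bl : α → List (List ℕ)} (hv : UPoly v) (hl : UPoly l)
    (hbl : Poly bl) : Poly fun a => comp2 (v a) (l a) (bl a) := by
  unfold comp2
  exact (hbl.append hbl).append (poly_fill2 hv hl hbl)

theorem poly_comp {v l : α → ℕ} {bl : α → List (List ℕ)} (hv : UPoly v) (hl : UPoly l)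
    (hbl : Poly bl) : Poly fun a => comp (v a) (l a) (bl a) := by
  unfold comp
  have h2 : UPoly fun a => 2 * l a := (UPoly.const 2).mul hl
  exact (poly_comp2 hv hl hbl).append (poly_fill1 hv (h2.mul h2) (poly_comp2 hv hl hbl))

theorem poly_base : Poly base := by
  unfold base
  have hlen : Poly fun M : Mat => M.length := upoly_len.toPoly
  have hrng : Poly fun M : Mat => List.range M.length := upoly_len.range
  refine Poly.cons ?_ ?_
  · refine Poly.cons hlen (Poly.cons (Poly.add hlen (Poly.const 1))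
      (Poly.cons (Poly.add hlen (Poly.const 2)) (Poly.cons (Poly.add hlen (Poly.const 3))
        (Poly.const _))))
  · refine Poly.flatMap (l := fun M : Mat => List.range M.length) (F := fun M u =>
      (List.range M.length).flatMap fun w => bif ent M u w then [[u, w, M.length]] else []) hrng ?_
    refine Poly.flatMap (l := fun x : Mat × ℕ => List.range x.1.length) (F := fun x w =>
      bif ent x.1 x.2 w then [[x.2, w, x.1.length]] else []) (hrng.comp (Poly.fst Poly.id)) ?_
    have p1 : Poly fun x : (Mat × ℕ) × ℕ => x.1.2 := Poly.snd (Poly.fst Poly.id)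
    have p2 : Poly fun x : (Mat × ℕ) × ℕ => x.2 := Poly.snd Poly.id
    have pa : Poly fun x : (Mat × ℕ) × ℕ => x.1.1 := Poly.fst (Poly.fst Poly.id)
    refine Poly.cond ?_ ?_ (Poly.const _)
    · exact poly_ent.comp (f := fun x : (Mat × ℕ) × ℕ => (x.1.1, x.1.2, x.2))
        (Poly.pair pa (Poly.pair p1 p2))
    · exact Poly.cons (Poly.cons p1 (Poly.cons p2 (Poly.cons (hlen.comp pa) (Poly.const _))))
        (Poly.const _)

theorem upoly_v : UPoly fun M : Mat => M.length + 4 := upoly_len.add (UPoly.const 4)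

theorem upoly_ell : UPoly fun M : Mat => ell M.length := by
  unfold ell
  exact ((upoly_len.mul upoly_len).add upoly_len).add (UPoly.const 3)

theorem poly_blocks : Poly blocks := by
  unfold blocks
  exact poly_comp upoly_v upoly_ell poly_base

theorem upoly_num : UPoly num := by
  unfold num
  exact upoly_v.add (UPoly.length poly_blocks)

theorem poly_adjT {v : α → ℕ} {bl : α → List (List ℕ)} {s t : α → ℕ} (hv : Poly v)
    (hbl : Poly bl) (hs : Poly s) (ht : Poly t) :
    Poly fun a => adjT (v a) (bl a) (s a) (t a) := by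
  unfold adjT
  have h1 : Poly fun a => decide (s a < v a) := Poly.decide_lt hs hv
  have h2 : Poly fun a => decide (t a < v a) := Poly.decide_lt ht hv
  refine Poly.cond h1 (Poly.cond h2 (Poly.decide_eq hs ht).not ?_) (Poly.cond h2 ?_ (Poly.const _))
  · exact Poly.decide_mem hs (Poly.getD hbl (Poly.sub ht hv) (Poly.const _))
  · exact Poly.decide_mem ht (Poly.getD hbl (Poly.sub hs hv) (Poly.const _))

theorem poly_redT : Poly redT := by
  unfold redT
  have h1 : Poly (fun M : Mat => List.range (num M)) := upoly_num.range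
  refine Poly.map (F := fun (M : Mat) s => (List.range (num M)).map fun t =>
    adjT (M.length + 4) (blocks M) s t) h1 ?_
  refine Poly.map (l := fun p : Mat × ℕ => List.range (num p.1))
    (F := fun (p : Mat × ℕ) t => adjT (p.1.length + 4) (blocks p.1) p.2 t)
    (h1.comp (Poly.fst Poly.id)) ?_
  have pa : Poly fun x : (Mat × ℕ) × ℕ => x.1.1 := Poly.fst (Poly.fst Poly.id)
  exact poly_adjT (upoly_v.toPoly.comp pa) (poly_blocks.comp pa) (Poly.snd (Poly.fst Poly.id))
    (Poly.snd Poly.id)

end poly

end Pool.Agent.NPC.FE677
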