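import Mathlib

/-!
# Incidence graphs with a clique of points: the eigenvalues
-/

set_option autoImplicit false
set_option linter.unusedSectionVars false

namespace Pool.Agent.H677.FE

open Finset Matrix

open Classical in
/-- `θ` is an eigenvalue of the adjacency matrix of `G`. -/
def IsEigenvalue {V : Type} [Fintype V] (G : SimpleGraph V) (θ : ℝ) : Prop :=
  ∃ x : V → ℝ, x ≠ 0 ∧ (G.adjMatrix ℝ).mulVec x = θ • x

/-- The graph of an incidence relation: the points form a clique, the blocks are pairwise not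
adjacent, and a point is adjacent to the blocks it is incident with. -/
def dg {P B : Type} (inc : P → B → Prop) : SimpleGraph (P ⊕ B) where
  Adj
    | Sum.inl p, Sum.inl q => p ≠ q
    | Sum.inl p, Sum.inr t => inc p t
    | Sum.inr t, Sum.inl p => inc p t
    | Sum.inr _, Sum.inr _ => False
  symm := ⟨by
    rintro (p | t) (q | s) h
    · exact Ne.symm h
    · exact h
    · exact h
    · exact h⟩
  loopless := ⟨by
    rintro (p | t) h
    · exact h rfl
    · exact h⟩

theorem iso_eigenvalue {V W : Type} [Fintype V] [Fintype W] {G : SimpleGraph V}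
    {H : SimpleGraph W} (φ : G ≃g H) {θ : ℝ} (h : IsEigenvalue G θ) : IsEigenvalue H θ := by
  classical
  obtain ⟨x, hx, hA⟩ := h
  refine ⟨fun w => x (φ.symm w), ?_, ?_⟩
  · intro h0
    apply hx
    funext v
    have h1 := congrFun h0 (φ v)
    simpa using h1
  · funext w
    have h1 := congrFun hA (φ.symm w)
    rw [Matrix.mulVec, dotProduct] at h1 ⊢
    rw [Pi.smul_apply] at h1 ⊢
    rw [← h1]
    refine (Fintype.sum_equiv φ.toEquiv _ _ fun v => ?_).symm
    show (G.adjMatrix ℝ) (φ.symm w) v * x v = (H.adjMatrix ℝ) w (φ v) * x (φ.symm (φ v))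
    rw [RelIso.symm_apply_apply, SimpleGraph.adjMatrix_apply, SimpleGraph.adjMatrix_apply]
    congr 1
    refine if_congr ?_ rfl rfl
    conv_rhs => rw [← RelIso.apply_symm_apply φ w]
    exact φ.map_adj_iff.symm

section

variable {P B : Type} [Fintype P] [Fintype B] (inc : P → B → Prop)

open Classical in
/-- The incidence matrix. -/
noncomputable def Nm (p : P) (t : B) : ℝ := if inc p t then 1 else 0

variable {inc}

theorem mulVec_inl (x : P ⊕ B → ℝ) (p : P) [DecidableRel (dg inc).Adj] :
    ((dg inc).adjMatrix ℝ).mulVec x (Sum.inl p) =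
      ∑ q, x (Sum.inl q) - x (Sum.inl p) + ∑ t, Nm inc p t * x (Sum.inr t) := by
  classical
  rw [Matrix.mulVec, dotProduct, Fintype.sum_sum_type]
  congr 1
  · have h1 : ∀ q : P, (dg inc).adjMatrix ℝ (Sum.inl p) (Sum.inl q) * x (Sum.inl q) =
        x (Sum.inl q) - if q = p then x (Sum.inl q) else 0 := by
      intro q
      rw [SimpleGraph.adjMatrix_apply]
      by_cases h : q = p
      · have h2 : ¬ (dg inc).Adj (Sum.inl p) (Sum.inl q) := fun h3 => h3 h.symm
        rw [if_neg h2, if_pos h, zero_mul, sub_self]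
      · have h2 : (dg inc).Adj (Sum.inl p) (Sum.inl q) := fun h3 => h h3.symm
        rw [if_pos h2, if_neg h, one_mul, sub_zero]
    simp only [h1]
    rw [Finset.sum_sub_distrib, Finset.sum_ite_eq', if_pos (Finset.mem_univ _)]
  · refine Finset.sum_congr rfl fun t _ => ?_
    rw [SimpleGraph.adjMatrix_apply]
    unfold Nm
    congr 1
    exact if_congr Iff.rfl rfl rfl

theorem mulVec_inr (x : P ⊕ B → ℝ) (t : B) [DecidableRel (dg inc).Adj] :
    ((dg inc).adjMatrix ℝ).mulVec x (Sum.inr t) = ∑ p, Nm inc p t * x (Sum.inl p) := by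
  classical
  rw [Matrix.mulVec, dotProduct, Fintype.sum_sum_type]
  have h1 : ∀ s : B, (dg inc).adjMatrix ℝ (Sum.inr t) (Sum.inr s) * x (Sum.inr s) = 0 := by
    intro s
    rw [SimpleGraph.adjMatrix_apply, if_neg (fun h : (dg inc).Adj (Sum.inr t) (Sum.inr s) => h),
      zero_mul]
  simp only [h1, Finset.sum_const_zero, add_zero]
  refine Finset.sum_congr rfl fun p _ => ?_
  rw [SimpleGraph.adjMatrix_apply]
  unfold Nm
  congr 1
  exact if_congr Iff.rfl rfl rfl

variable {l : ℝ} (h1 : ∀ p q, p ≠ q → ∑ t, Nm inc p t * Nm inc q t = l)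
  (h2 : ∀ p, ∑ t, Nm inc p t * Nm inc p t = l ^ 2)

include h1 h2

theorem gram [DecidableEq P] (y : P → ℝ) (p : P) :
    ∑ t, Nm inc p t * ∑ q, Nm inc q t * y q = l * ∑ q, y q + (l ^ 2 - l) * y p := by
  have e1 : ∀ t, Nm inc p t * ∑ q, Nm inc q t * y q =
      ∑ q, y q * (Nm inc p t * Nm inc q t) := by
    intro t
    rw [Finset.mul_sum]
    exact Finset.sum_congr rfl fun q _ => by ring
  simp only [e1]
  rw [Finset.sum_comm]
  have e2 : ∀ q, ∑ t, y q * (Nm inc p t * Nm inc q t) =
      l * y q + if q = p then (l ^ 2 - l) * y q else 0 := by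
    intro q
    rw [← Finset.mul_sum]
    by_cases h : q = p
    · subst h
      rw [h2, if_pos rfl]
      ring
    · rw [h1 p q (Ne.symm h), if_neg h]
      ring
  simp only [e2]
  rw [Finset.sum_add_distrib, ← Finset.mul_sum, Finset.sum_ite_eq', if_pos (Finset.mem_univ _)]

/-- All eigenvalues. -/
theorem eigenvalue_mem {θ : ℝ} (hθ : IsEigenvalue (dg inc) θ) :
    θ = -l ∨ θ = Fintype.card P + l - 1 ∨ θ = l - 1 ∨ θ = 0 := by
  classical
  obtain ⟨x, hx, hA⟩ := hθ
  obtain ⟨s, hs⟩ : ∃ s, s = ∑ q, x (Sum.inl q) := ⟨_, rfl⟩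
  have E1 : ∀ p, s - x (Sum.inl p) + ∑ t, Nm inc p t * x (Sum.inr t) = θ * x (Sum.inl p) := by
    intro p
    have := congrFun hA (Sum.inl p)
    rw [mulVec_inl] at this
    rw [hs]
    exact this
  have E2 : ∀ t, ∑ p, Nm inc p t * x (Sum.inl p) = θ * x (Sum.inr t) := by
    intro t
    have := congrFun hA (Sum.inr t)
    rw [mulVec_inr] at this
    exact this
  have E3 : ∀ p, (θ + l) * (s - (θ - l + 1) * x (Sum.inl p)) = 0 := by
    intro p
    have g1 := gram h1 h2 (fun q => x (Sum.inl q)) p
    simp only [E2] at g1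
    have g2 : ∑ t, Nm inc p t * (θ * x (Sum.inr t)) = θ * ∑ t, Nm inc p t * x (Sum.inr t) := by
      rw [Finset.mul_sum]
      exact Finset.sum_congr rfl fun t _ => by ring
    rw [g2, ← hs] at g1
    have g3 := E1 p
    linear_combination θ * g3 - g1
  by_cases c1 : θ = -l
  · exact Or.inl c1
  right
  have c1' : θ + l ≠ 0 := fun h => c1 (by linarith)
  have E4 : ∀ p, s = (θ - l + 1) * x (Sum.inl p) := by
    intro p
    rcases mul_eq_zero.1 (E3 p) with h | h
    · exact absurd h c1'
    · linarith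
  by_cases c2 : s = 0
  · right
    by_cases c3 : θ = l - 1
    · exact Or.inl c3
    · right
      have E5 : ∀ p, x (Sum.inl p) = 0 := by
        intro p
        have h := E4 p
        rw [c2] at h
        rcases mul_eq_zero.1 h.symm with h' | h'
        · exact absurd (by linarith) c3
        · exact h'
      by_contra c4
      apply hx
      funext z
      rcases z with p | t
      · exact E5 p
      · have h := E2 t
        simp only [E5, mul_zero, Finset.sum_const_zero] at h
        rcases mul_eq_zero.1 h.symm with h' | h'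
        · exact absurd h' c4
        · exact h'
  · left
    have E6 : (Fintype.card P : ℝ) * s = (θ - l + 1) * s := by
      have h : ∑ _p : P, s = ∑ p : P, (θ - l + 1) * x (Sum.inl p) :=
        Finset.sum_congr rfl fun p _ => E4 p
      rw [Finset.sum_const, Finset.card_univ, nsmul_eq_mul, ← Finset.mul_sum, ← hs] at h
      exact h
    have := mul_right_cancel₀ c2 E6
    linarith

/-- The eigenvalue of the constant vector. -/
theorem eig_const (p₀ : P) (hl : 1 < l) : IsEigenvalue (dg inc) (Fintype.card P + l - 1) := by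
  classical
  obtain ⟨θ, hθ⟩ : ∃ θ : ℝ, θ = Fintype.card P + l - 1 := ⟨_, rfl⟩
  have hpos : 0 < θ := by
    have : (0 : ℝ) ≤ Fintype.card P := Nat.cast_nonneg _
    linarith
  rw [← hθ]
  refine ⟨Sum.elim (fun _ => θ) (fun t => ∑ q, Nm inc q t), ?_, ?_⟩
  · intro h
    have := congrFun h (Sum.inl p₀)
    exact hpos.ne' this
  · funext z
    rcases z with p | t
    · rw [mulVec_inl]
      simp only [Sum.elim_inl, Sum.elim_inr, Pi.smul_apply, smul_eq_mul]
      have g1 := gram h1 h2 (fun _ => 1) p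
      simp only [mul_one, Finset.sum_const, Finset.card_univ, nsmul_eq_mul] at g1
      rw [g1, Finset.sum_const, Finset.card_univ, nsmul_eq_mul, hθ]
      ring
    · rw [mulVec_inr]
      simp only [Sum.elim_inl, Sum.elim_inr, Pi.smul_apply, smul_eq_mul]
      rw [Finset.mul_sum]
      exact Finset.sum_congr rfl fun q _ => by ring

/-- The eigenvalues of differences. -/
theorem eig_diff {θ : ℝ} (hθ : θ ^ 2 + θ = l ^ 2 - l) (hθ0 : θ ≠ 0) {p₀ q₀ : P} (hpq : p₀ ≠ q₀) :
    IsEigenvalue (dg inc) θ := by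
  classical
  let y : P → ℝ := fun p => (if p = p₀ then 1 else 0) - if p = q₀ then 1 else 0
  have hy : ∑ q, y q = 0 := by
    show ∑ q, ((if q = p₀ then (1 : ℝ) else 0) - if q = q₀ then 1 else 0) = 0
    rw [Finset.sum_sub_distrib, Finset.sum_ite_eq', Finset.sum_ite_eq',
      if_pos (Finset.mem_univ _), if_pos (Finset.mem_univ _), sub_self]
  refine ⟨Sum.elim (fun p => θ * y p) (fun t => ∑ q, Nm inc q t * y q), ?_, ?_⟩
  · intro h
    have h3 := congrFun h (Sum.inl p₀)
    have h4 : θ * y p₀ = 0 := h3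
    have h5 : y p₀ = 1 := by
      show (if p₀ = p₀ then (1 : ℝ) else 0) - (if p₀ = q₀ then 1 else 0) = 1
      rw [if_pos rfl, if_neg hpq, sub_zero]
    rw [h5, mul_one] at h4
    exact hθ0 h4
  · funext z
    rcases z with p | t
    · rw [mulVec_inl]
      simp only [Sum.elim_inl, Sum.elim_inr, Pi.smul_apply, smul_eq_mul]
      rw [gram h1 h2 y p, ← Finset.mul_sum, hy]
      linear_combination -(y p) * hθ
    · rw [mulVec_inr]
      simp only [Sum.elim_inl, Sum.elim_inr, Pi.smul_apply, smul_eq_mul]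
      rw [Finset.mul_sum]
      exact Finset.sum_congr rfl fun q _ => by ring

omit h1 h2 in
/-- The eigenvalue zero. -/
theorem eig_zero (h : Fintype.card P < Fintype.card B) : IsEigenvalue (dg inc) 0 := by
  classical
  let f : (B → ℝ) →ₗ[ℝ] (P → ℝ) := (Matrix.of fun p t => Nm inc p t).mulVecLin
  have h3 : LinearMap.ker f ≠ ⊥ := by
    apply LinearMap.ker_ne_bot_of_finrank_lt
    rw [Module.finrank_pi, Module.finrank_pi]
    exact h
  obtain ⟨y, hy, hy0⟩ := Submodule.exists_mem_ne_zero_of_ne_bot h3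
  rw [LinearMap.mem_ker] at hy
  refine ⟨Sum.elim (fun _ => 0) y, ?_, ?_⟩
  · intro h4
    apply hy0
    funext t
    exact congrFun h4 (Sum.inr t)
  · funext z
    rcases z with p | t
    · rw [mulVec_inl]
      simp only [Sum.elim_inl, Sum.elim_inr, Pi.smul_apply, smul_eq_mul]
      have h5 := congrFun hy p
      have h6 : ∑ t, Nm inc p t * y t = 0 := h5
      rw [h6]
      simp
    · rw [mulVec_inr]
      simp

/-- **The eigenvalues.** -/
theorem eigenvalues (hl : 1 < l) {p₀ q₀ : P} (hpq : p₀ ≠ q₀)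
    (h : Fintype.card P < Fintype.card B) (θ : ℝ) :
    IsEigenvalue (dg inc) θ ↔ θ = -l ∨ θ = Fintype.card P + l - 1 ∨ θ = l - 1 ∨ θ = 0 := by
  constructor
  · exact eigenvalue_mem h1 h2
  · rintro (rfl | rfl | rfl | rfl)
    · exact eig_diff h1 h2 (by ring) (by linarith) hpq
    · exact eig_const h1 h2 p₀ hl
    · exact eig_diff h1 h2 (by ring) (by linarith) hpq
    · exact eig_zero h

end

end Pool.Agent.H677.FE
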